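import Pool.Agent.Helper63.PG.Basic

/-! Project PG, module CLO. -/

set_option autoImplicit false

namespace Pool.Agent.Helper77.PG

open Pool.Agent.Helper63.PG

variable {V : Type*}

theorem hCLO {G : SimpleGraph V} {T U : Set V} {π : V → V → ℕ} (hP : PRule G T U π)
    {x y z : V} (hx : x ∈ U) (hy : y ∈ U) (hz : z ∈ U) (hxz : G.Adj x z)
    (h1 : Cm G T x y) (h2 : Cm G T y z) : ∃ t ∈ T, G.Adj t x ∧ G.Adj t y ∧ G.Adj t z := by
  by_contra hcon
  push Not at hcon
  obtain ⟨s, hs, hsx, hsy⟩ := h1
  obtain ⟨t, ht, hty, htz⟩ := h2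
  have hsz : ¬ G.Adj s z := hcon s hs hsx hsy
  have htx : ¬ G.Adj t x := fun h => hcon t ht h hty htz
  have hst : s ≠ t := by
    rintro rfl
    exact hsz htz
  have e0 := hP s hs t ht hst (fun _ => y) 0 (IP.single G _) (fun _ _ => hy)
    (fun i hi => ⟨fun _ => by omega, fun _ => hsy⟩) (fun i hi => ⟨fun _ => by omega, fun _ => hty⟩)
  have e1 := hP s hs t ht hst (fun i => if i = 0 then x else z) 1 (by
      intro i j hij hj
      obtain rfl : i = 0 := by omega
      obtain rfl : j = 1 := by omega
      exact ⟨fun _ => rfl, fun _ => hxz⟩)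
    (by
      intro i _
      by_cases h : i = 0
      · simp only [h, if_true]; exact hx
      · simp only [h, if_false]; exact hz)
    (by
      intro i _
      by_cases h : i = 0
      · simp only [h, if_true]; exact ⟨fun _ => trivial, fun _ => hsx⟩
      · simp only [h, if_false]; exact ⟨fun h' => absurd h' hsz, fun h' => h'.elim⟩)
    (by
      intro i hi
      by_cases h : i = 0
      · simp only [h, if_true]; exact ⟨fun h' => absurd h' htx, fun h' => by omega⟩
      · simp only [h, if_false]; exact ⟨fun _ => by omega, fun _ => htz⟩)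
  omega

end Pool.Agent.Helper77.PG
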